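import Pool.Agent.H.MP_918064_lc.B

set_option autoImplicit false

namespace Pool.Agent.Results.MP_918064_lc.Dichotomy

open Pool.Agent.Lib.CX Pool.Agent.H.MP_918064_lc

theorem result : (∀ r, 3 ≤ r → FPT (RDom r) par) ∧
    (∃ R : Gr × ℕ → Inp, PT R ∧ ∀ a, (DomSet a ↔ RDom 2 (R a)) ∧ par (R a) ≤ a.2) ∧
    (FPT (RDom 2) par → FPT DomSet Prod.snd) := by
  obtain ⟨R, h1, h2⟩ := hard
  exact ⟨fun _ => fpt, ⟨R, h1, h2⟩, FPT.red h1 .id (fun a => (h2 a).1) fun a => (h2 a).2⟩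

end Pool.Agent.Results.MP_918064_lc.Dichotomy
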